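import Mathlib

/-! Growth of a superadditive sequence from the growth of its sums. -/

namespace Pool.Agent.TH13.N4

open Filter

/-- telescoping -/
theorem sum_le {N r : ℕ → ℕ} {k : ℕ} (h1 : ∀ m, r (m + k) ≤ N (m + k) + r m) (s J : ℕ) :
    r (s + J * k) ≤ (∑ j ∈ Finset.range J, N (s + (j + 1) * k)) + r s := by
  induction J with
  | zero => simp
  | succ J ih =>
    rw [Finset.sum_range_succ]
    have e : s + (J + 1) * k = s + J * k + k := by ring
    rw [e]
    have := h1 (s + J * k)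
    omega

/-- some term is large -/
theorem exists_large {N r : ℕ → ℕ} {k : ℕ} (hk : 1 ≤ k) {δ : ℝ} (hδ : 0 < δ)
    (h1 : ∀ m, r (m + k) ≤ N (m + k) + r m)
    (hgr : ∀ η : ℝ, 0 < η → ∀ᶠ m : ℕ in atTop, (δ - η) * (m : ℝ) ^ 2 ≤ 2 * (r m : ℝ))
    {η : ℝ} (hη : 0 < η) : ∃ m : ℕ, 1 ≤ m ∧ (k * δ - η) * m + 1 ≤ (N m : ℝ) := by
  by_contra hc
  push Not at hc
  have hk' : (1 : ℝ) ≤ k := by exact_mod_cast hk
  have hk0 : (0 : ℝ) < k := by linarith
  -- the bound for multiples of `k`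
  have h2 : ∀ J : ℕ, (r (J * k) : ℝ) ≤ (k * δ - η) * (k * ((J : ℝ) * (J + 1) / 2)) + J + r 0 := by
    intro J
    have h3 := sum_le h1 0 J
    rw [zero_add] at h3
    have h4 : (r (J * k) : ℝ) ≤ (∑ j ∈ Finset.range J, (N (0 + (j + 1) * k) : ℝ)) + r 0 := by
      exact_mod_cast h3
    have h5 : (∑ j ∈ Finset.range J, (N (0 + (j + 1) * k) : ℝ)) ≤
        ∑ j ∈ Finset.range J, ((k * δ - η) * (((j : ℝ) + 1) * k) + 1) := by
      apply Finset.sum_le_sum
      intro j _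
      have e0 : 0 + (j + 1) * k = (j + 1) * k := zero_add _
      have h6 := hc ((j + 1) * k) (Nat.mul_pos (Nat.succ_pos j) hk)
      rw [e0]
      push_cast at h6
      exact h6.le
    have h7 : ∀ J : ℕ, ∑ j ∈ Finset.range J, ((k * δ - η) * (((j : ℝ) + 1) * k) + 1) =
        (k * δ - η) * (k * ((J : ℝ) * (J + 1) / 2)) + J := by
      intro J
      induction J with
      | zero => simp
      | succ J ih =>
        rw [Finset.sum_range_succ, ih]
        push_cast
        ring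
    rw [h7] at h5
    linarith
  obtain ⟨M0, hM0⟩ := eventually_atTop.1 (hgr (η / (2 * k)) (by positivity))
  -- compare for large J
  have h8 : ∀ J : ℕ, M0 ≤ J → 1 ≤ J → (η / 2) * k * (J : ℝ) ≤ |k * δ - η| * k + 2 + 2 * r 0 := by
    intro J hJ hJ1
    have hJM : M0 ≤ J * k := hJ.trans (Nat.le_mul_of_pos_right J hk)
    have h9 := hM0 (J * k) hJM
    have h10 := h2 J
    push_cast at h9
    have hJ' : (1 : ℝ) ≤ J := by exact_mod_cast hJ1
    have e1 : (δ - η / (2 * k)) * ((J : ℝ) * k) ^ 2 = (k * δ - η / 2) * k * (J : ℝ) ^ 2 := by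
      field_simp
    rw [e1] at h9
    have h11 : (k * δ - η / 2) * k * (J : ℝ) ^ 2 ≤ (k * δ - η) * k * ((J : ℝ) ^ 2 + J) + 2 * J + 2 * r 0 := by
      nlinarith
    have h12 : (η / 2) * k * (J : ℝ) ^ 2 ≤ (k * δ - η) * k * J + 2 * J + 2 * r 0 := by nlinarith
    have h13 : (k * δ - η) * k * J ≤ |k * δ - η| * k * J := by
      have := le_abs_self (k * δ - η)
      have h14 : (0 : ℝ) ≤ k * J := by positivity
      nlinarith
    have h15 : (2 * r 0 : ℝ) ≤ 2 * r 0 * J := by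
      have : (0 : ℝ) ≤ 2 * r 0 := by positivity
      nlinarith
    have h16 : (η / 2) * k * (J : ℝ) * J ≤ (|k * δ - η| * k + 2 + 2 * r 0) * J := by nlinarith
    exact le_of_mul_le_mul_right h16 (by linarith)
  obtain ⟨J, hJ⟩ := exists_nat_gt ((|k * δ - η| * k + 2 + 2 * r 0) / ((η / 2) * k))
  have h17 := h8 (max J (max M0 1)) (le_trans (le_max_left _ _) (le_max_right _ _))
    (le_trans (le_max_right _ _) (le_max_right _ _))
  rw [div_lt_iff₀ (by positivity)] at hJ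
  have h18 : (J : ℝ) ≤ ((max J (max M0 1) : ℕ) : ℝ) := by exact_mod_cast le_max_left _ _
  have h19 : (J : ℝ) * (η / 2 * k) ≤ ((max J (max M0 1) : ℕ) : ℝ) * (η / 2 * k) :=
    mul_le_mul_of_nonneg_right h18 (by positivity)
  nlinarith

theorem mul_le {N : ℕ → ℕ} (hsup : ∀ i j, 1 ≤ N i → 1 ≤ N j → N i + N j ≤ N (i + j) + 1)
    {m1 : ℕ} (hm1 : 1 ≤ N m1) (q : ℕ) : 1 ≤ N ((q + 1) * m1) ∧ (q + 1) * (N m1 - 1) + 1 ≤ N ((q + 1) * m1) := by
  induction q with
  | zero => simp only [zero_add, one_mul]; omega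
  | succ q ih =>
    have h := hsup ((q + 1) * m1) m1 ih.1 hm1
    have e : (q + 1 + 1) * m1 = (q + 1) * m1 + m1 := by ring
    have e2 : (q + 1 + 1) * (N m1 - 1) = (q + 1) * (N m1 - 1) + (N m1 - 1) := by ring
    rw [e, e2]
    omega

/-- **growth of the ranks** -/
theorem growth {N r : ℕ → ℕ} {k : ℕ} (hk : 1 ≤ k) {δ : ℝ} (hδ : 0 < δ)
    (h1 : ∀ m, r (m + k) ≤ N (m + k) + r m) (hpos : ∀ m, 1 ≤ r m → 1 ≤ N m)
    (hsup : ∀ i j, 1 ≤ N i → 1 ≤ N j → N i + N j ≤ N (i + j) + 1)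
    (hgr : ∀ η : ℝ, 0 < η → ∀ᶠ m : ℕ in atTop, (δ - η) * (m : ℝ) ^ 2 ≤ 2 * (r m : ℝ))
    {η : ℝ} (hη : 0 < η) : ∀ᶠ m : ℕ in atTop, (k * δ - η) * (m : ℝ) ≤ (N m : ℝ) := by
  -- we may assume that η is small
  wlog hsmall : η < k * δ generalizing η
  · filter_upwards [this (η := k * δ / 2) (by positivity) (by
      have : (0 : ℝ) < k * δ := by positivity
      linarith)] with m hm
    have h0 : (0 : ℝ) ≤ m := Nat.cast_nonneg m
    have h2 : (0 : ℝ) < k * δ := by positivity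
    push Not at hsmall
    nlinarith
  obtain ⟨m1, hm1, hN1⟩ := exists_large hk hδ h1 hgr (η := η / 2) (by positivity)
  have hm1' : (1 : ℝ) ≤ m1 := by exact_mod_cast hm1
  have hν : 0 < k * δ - η / 2 := by linarith
  have hN1' : 1 ≤ N m1 := by
    have : (1 : ℝ) ≤ N m1 := by nlinarith
    exact_mod_cast this
  -- all large terms are positive
  obtain ⟨m0, hm0⟩ := eventually_atTop.1 (hgr (δ / 2) (by positivity))
  have hNpos : ∀ s, max m0 1 ≤ s → 1 ≤ N s := by
    intro s hs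
    apply hpos
    have h2 := hm0 s (le_trans (le_max_left _ _) hs)
    have h3 : (1 : ℝ) ≤ s := by exact_mod_cast le_trans (le_max_right _ _) hs
    have h4 : (0 : ℝ) < r s := by
      have h5 : (1 : ℝ) ≤ (s : ℝ) ^ 2 := by nlinarith
      have h6 : (0 : ℝ) < (δ - δ / 2) * (s : ℝ) ^ 2 := by
        apply mul_pos
        · linarith
        · linarith
      linarith
    have h5 : 0 < r s := by exact_mod_cast h4
    omega
  set c0 := max m0 1 with hc0
  -- the bound with an additive constant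
  have hbd : ∀ m : ℕ, c0 + m1 ≤ m → (k * δ - η / 2) * ((m : ℝ) - c0 - m1) ≤ N m := by
    intro m hm
    obtain ⟨q, s, hs1, hs2, hms⟩ : ∃ q s : ℕ, c0 ≤ s ∧ s < c0 + m1 ∧ m = (q + 1) * m1 + s := by
      refine ⟨(m - c0) / m1 - 1, c0 + (m - c0) % m1, by omega, ?_, ?_⟩
      · have := Nat.mod_lt (m - c0) (by omega : 0 < m1)
        omega
      · have h2 : 1 ≤ (m - c0) / m1 := (Nat.one_le_div_iff (by omega)).2 (by omega)
        have h3 := Nat.div_add_mod (m - c0) m1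
        have h4 : (m - c0) / m1 - 1 + 1 = (m - c0) / m1 := by omega
        rw [h4, mul_comm]
        omega
    have h2 := mul_le hsup hN1' q
    have h3 := hsup ((q + 1) * m1) s h2.1 (hNpos s hs1)
    rw [← hms] at h3
    have h4 : (q + 1) * (N m1 - 1) + 1 ≤ N m := by
      have := hNpos s hs1
      omega
    have h5 : ((q : ℝ) + 1) * ((N m1 : ℝ) - 1) + 1 ≤ N m := by
      have : (((q + 1) * (N m1 - 1) + 1 : ℕ) : ℝ) ≤ N m := by exact_mod_cast h4
      rw [Nat.cast_add, Nat.cast_mul, Nat.cast_sub hN1'] at this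
      push_cast at this
      exact this
    have h6 : (m : ℝ) = ((q : ℝ) + 1) * m1 + s := by rw [hms]; push_cast; ring
    have h7 : (s : ℝ) ≤ c0 + m1 := by exact_mod_cast hs2.le
    have h8 : (0 : ℝ) ≤ (q : ℝ) + 1 := by positivity
    have h9 : ((q : ℝ) + 1) * ((k * δ - η / 2) * m1) ≤ ((q : ℝ) + 1) * ((N m1 : ℝ) - 1) :=
      mul_le_mul_of_nonneg_left (by linarith) h8
    have h10 : (k * δ - η / 2) * ((m : ℝ) - c0 - m1) ≤ (k * δ - η / 2) * (((q : ℝ) + 1) * m1) :=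
      mul_le_mul_of_nonneg_left (by rw [h6]; linarith) hν.le
    nlinarith
  obtain ⟨m2, hm2⟩ := exists_nat_gt ((k * δ - η / 2) * (c0 + m1) / (η / 2))
  filter_upwards [eventually_ge_atTop (max m2 (c0 + m1))] with m hm
  have h2 := hbd m (le_trans (le_max_right _ _) hm)
  have h3 : (m2 : ℝ) ≤ m := by exact_mod_cast le_trans (le_max_left _ _) hm
  rw [div_lt_iff₀ (by positivity)] at hm2
  nlinarith

end Pool.Agent.TH13.N4
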