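import Mathlib

/-!
`dim (A B) ≥ dim A + dim B - 1` for nonzero finite-dimensional subspaces of a field `K` over a
subfield `F` which is algebraically closed in `K` (after helper493's `NEF/Mul.lean`, where `F` is
algebraically closed).
-/

set_option autoImplicit false

open Module

namespace Pool.Agent.TH13.N4

variable {F K : Type*} [Field F] [Field K] [Algebra F K]

/-- multiplication by `e` -/
noncomputable def mulL (e : K) : K →ₗ[F] K := LinearMap.mulLeft F e

theorem mulL_apply (e x : K) : mulL (F := F) e x = e * x := rfl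

theorem mulL_inj {e : K} (he : e ≠ 0) : Function.Injective (mulL (F := F) e) := fun _ _ h =>
  mul_left_cancel₀ he h

theorem finrank_map_mulL {e : K} (he : e ≠ 0) (B : Submodule F K) :
    finrank F (B.map (mulL (F := F) e)) = finrank F B :=
  (LinearEquiv.finrank_eq (Submodule.equivMapOfInjective _ (mulL_inj he) B)).symm

/-- an element which maps a nonzero finite-dimensional space into itself is algebraic -/
theorem algebraic_of_stable {A : Submodule F K} [FiniteDimensional F A] (hA : A ≠ ⊥) {e : K}
    (h : ∀ a ∈ A, e * a ∈ A) : IsAlgebraic F e :=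
  (isIntegral_of_smul_mem_submodule A hA (Module.Finite.iff_fg.1 inferInstance) e h).isAlgebraic

/-- if `B a / b ⊆ A` for all `a`, `b`, then `B` is a line -/
theorem line_of_stable (hcl : ∀ z : K, IsAlgebraic F z → z ∈ (algebraMap F K).range)
    {A B : Submodule F K} [FiniteDimensional F A] (hA : A ≠ ⊥)
    {b0 : K} (h0 : b0 ≠ 0)
    (h : ∀ a ∈ A, ∀ b ∈ B, b * (a / b0) ∈ A) : B ≤ Submodule.span F {b0} := by
  intro b hb
  obtain ⟨c, hc⟩ := hcl (b / b0) (algebraic_of_stable hA fun a ha => by
    have := h a ha b hb
    rwa [show b / b0 * a = b * (a / b0) by ring])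
  rw [Submodule.mem_span_singleton]
  refine ⟨c, ?_⟩
  rw [Algebra.smul_def, hc, div_mul_cancel₀ _ h0]

theorem finrank_mul_field (hcl : ∀ z : K, IsAlgebraic F z → z ∈ (algebraMap F K).range) (n : ℕ) :
    ∀ (A B : Submodule F K), finrank F B = n → A ≠ ⊥ → B ≠ ⊥ →
    FiniteDimensional F A → FiniteDimensional F B →
    finrank F A + finrank F B ≤ finrank F (A * B : Submodule F K) + 1 := by
  induction n using Nat.strong_induction_on with
  | _ n ih =>
    intro A B hn hA hB hFA hFB
    obtain ⟨b0, hb0, h0⟩ := Submodule.exists_mem_ne_zero_of_ne_bot hB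
    by_cases hst : ∀ a ∈ A, ∀ b ∈ B, b ≠ 0 → ∀ b' ∈ B, b' * (a / b) ∈ A
    · -- `B` is a line
      have h1 : B ≤ Submodule.span F {b0} :=
        line_of_stable hcl hA h0 fun a ha b hb => hst a ha b0 hb0 h0 b hb
      have h2 : B = Submodule.span F {b0} := le_antisymm h1
        ((Submodule.span_singleton_le_iff_mem _ _).2 hb0)
      have h3 : finrank F B = 1 := by
        rw [h2]
        exact finrank_span_singleton h0
      have h4 : A.map (mulL (F := F) b0) ≤ A * B := by
        rintro _ ⟨a, ha, rfl⟩
        rw [mulL_apply, mul_comm b0 a]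
        exact Submodule.mul_mem_mul ha hb0
      have : FiniteDimensional F (A * B : Submodule F K) :=
        Module.Finite.iff_fg.2 ((Module.Finite.iff_fg.1 hFA).mul (Module.Finite.iff_fg.1 hFB))
      have h5 := Submodule.finrank_mono h4
      rw [finrank_map_mulL h0] at h5
      omega
    · push Not at hst
      obtain ⟨a, ha, b, hb, hb0', b', hb', hna⟩ := hst
      have ha0 : a ≠ 0 := by
        rintro rfl
        apply hna
        rw [zero_div, mul_zero]
        exact A.zero_mem
      set e : K := a / b with he
      have he0 : e ≠ 0 := div_ne_zero ha0 hb0'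
      set B1 : Submodule F K := B ⊓ A.comap (mulL (F := F) e) with hB1
      set A1 : Submodule F K := A ⊔ B.map (mulL (F := F) e) with hA1
      have hbB1 : b ∈ B1 := ⟨hb, by
        show e * b ∈ A
        rw [he, div_mul_cancel₀ _ hb0']
        exact ha⟩
      have hFB1 : FiniteDimensional F B1 := Submodule.finiteDimensional_of_le inf_le_left
      have hFA1 : FiniteDimensional F A1 := Submodule.finiteDimensional_sup _ _
      have hlt : finrank F B1 < n := by
        rw [← hn]
        refine Submodule.finrank_lt_finrank_of_lt (lt_of_le_of_ne inf_le_left fun h => ?_)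
        apply hna
        have : b' ∈ B1 := by rw [h]; exact hb'
        have h2 : e * b' ∈ A := this.2
        rwa [mul_comm e b'] at h2
      have h1 := ih _ hlt A1 B1 rfl (ne_bot_of_le_ne_bot hA le_sup_left)
        (Submodule.ne_bot_iff _ |>.2 ⟨b, hbB1, hb0'⟩) hFA1 hFB1
      have h2 : A1 * B1 ≤ A * B := by
        rw [hA1, Submodule.sup_mul]
        refine sup_le (Submodule.mul_le.2 fun x hx y hy => Submodule.mul_mem_mul hx hy.1) ?_
        rw [Submodule.mul_le]
        rintro _ ⟨x, hx, rfl⟩ y hy
        have h3 : e * y ∈ A := hy.2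
        rw [mulL_apply, show e * x * y = (e * y) * x by ring]
        exact Submodule.mul_mem_mul h3 hx
      have : FiniteDimensional F (A * B : Submodule F K) :=
        Module.Finite.iff_fg.2 ((Module.Finite.iff_fg.1 hFA).mul (Module.Finite.iff_fg.1 hFB))
      have h3 := Submodule.finrank_mono h2
      have h4 : finrank F A1 + finrank F (A ⊓ B.map (mulL (F := F) e) : Submodule F K) =
          finrank F A + finrank F B := by
        rw [hA1, Submodule.finrank_sup_add_finrank_inf_eq, finrank_map_mulL he0]
      have h5 : (A ⊓ B.map (mulL (F := F) e) : Submodule F K) = B1.map (mulL (F := F) e) := by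
        ext y
        constructor
        · rintro ⟨hy1, x, hx, rfl⟩
          exact ⟨x, ⟨hx, hy1⟩, rfl⟩
        · rintro ⟨x, ⟨hx, hx2⟩, rfl⟩
          exact ⟨hx2, x, hx, rfl⟩
      rw [h5, finrank_map_mulL he0] at h4
      omega

end Pool.Agent.TH13.N4
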