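import Pool.Agent.TH13.N4.Comb
import Pool.Agent.TH13.N4.Mul

/-! Growth of the ranks of the spaces of sections over the field of a pencil (N4, M2 and M3). -/

set_option autoImplicit false

namespace Pool.Agent.TH13.N4

open Filter Polynomial

variable {C κ L : Type*} [Field C] [Field κ] [Field L] [Algebra C κ] [Algebra κ L] [Algebra C L]
  [IsScalarTower C κ L]

/-- products with the two sections of the pencil -/
theorem pow_mul_mem {R : ℕ → Submodule C L} (hmul : ∀ i j, ∀ x ∈ R i, ∀ y ∈ R j, x * y ∈ R (i + j))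
    {k : ℕ} {a b : L} (ha : a ∈ R k) (hb : b ∈ R k) {s : ℕ} {x : L} (hx : x ∈ R s) (i j : ℕ) :
    a ^ i * (b ^ j * x) ∈ R (s + k * (i + j)) := by
  have h1 : ∀ j : ℕ, b ^ j * x ∈ R (s + k * j) := by
    intro j
    induction j with
    | zero => simpa using hx
    | succ j ih =>
      have e : s + k * (j + 1) = k + (s + k * j) := by ring
      rw [e, pow_succ', mul_assoc]
      exact hmul _ _ _ hb _ ih
  induction i with
  | zero => simpa using h1 j
  | succ i ih =>
    have e : s + k * (i + 1 + j) = k + (s + k * (i + j)) := by ring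
    rw [e, pow_succ', mul_assoc]
    exact hmul _ _ _ ha _ ih

/-- clearing denominators -/
theorem clear_den {g : κ} (hκ : ∀ z : κ, ∃ p q : C[X], aeval g q ≠ 0 ∧ z * aeval g q = aeval g p)
    {ι : Type*} [Fintype ι] (z : ι → κ) :
    ∃ (Q : κ) (p : ι → C[X]), Q ≠ 0 ∧ ∀ l, z l * Q = aeval g (p l) := by
  classical
  choose p q hq hp using fun l => hκ (z l)
  refine ⟨∏ l, aeval g (q l), fun l => p l * ∏ l' ∈ Finset.univ.erase l, q l', ?_, ?_⟩
  · exact Finset.prod_ne_zero_iff.2 fun l _ => hq l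
  · intro l
    rw [map_mul, map_prod, ← hp l, mul_assoc,
      Finset.mul_prod_erase Finset.univ (fun l => aeval g (q l)) (Finset.mem_univ l)]

/-- a relation over `κ` gives a relation with polynomials in `g` whose constant terms do not all
vanish -/
theorem exists_relation {g : κ} (hg : g ≠ 0)
    (hκ : ∀ z : κ, ∃ p q : C[X], aeval g q ≠ 0 ∧ z * aeval g q = aeval g p)
    {ι : Type*} [Fintype ι] {u : ι → L} {z : ι → κ} (hz : ∑ l, z l • u l = 0) (hz0 : z ≠ 0) :
    ∃ c : ι → C[X], (∃ l, (c l).coeff 0 ≠ 0) ∧ ∑ l, aeval g (c l) • u l = 0 := by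
  classical
  obtain ⟨Q, p, hQ, hp⟩ := clear_den hκ z
  obtain ⟨l₀, hl₀⟩ : ∃ l, z l ≠ 0 := by
    by_contra h
    push Not at h
    exact hz0 (funext h)
  have hp0 : p l₀ ≠ 0 := by
    intro h
    have := hp l₀
    rw [h, map_zero] at this
    exact (mul_ne_zero hl₀ hQ) this
  have hrel : ∑ l, aeval g (p l) • u l = 0 := by
    have h1 : ∑ l, aeval g (p l) • u l = Q • ∑ l, z l • u l := by
      rw [Finset.smul_sum]
      refine Finset.sum_congr rfl fun l _ => ?_
      rw [← hp l, smul_smul, mul_comm]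
    rw [h1, hz, smul_zero]
  -- the smallest exponent which occurs
  have hex : ∃ e : ℕ, ∃ l, (p l).coeff e ≠ 0 := by
    by_contra h
    push Not at h
    exact hp0 (Polynomial.ext fun e => by rw [h e l₀, coeff_zero])
  obtain ⟨l₁, hl₁⟩ := Nat.find_spec hex
  have hmin : ∀ l e, e < Nat.find hex → (p l).coeff e = 0 := by
    intro l e he
    by_contra h
    exact Nat.find_min hex he ⟨l, h⟩
  have hdvd : ∀ l, (X : C[X]) ^ Nat.find hex ∣ p l := fun l => X_pow_dvd_iff.2 fun e he => hmin l e he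
  choose c hc using hdvd
  refine ⟨c, ⟨l₁, ?_⟩, ?_⟩
  · have h1 : (p l₁).coeff (Nat.find hex) = (c l₁).coeff 0 := by
      conv_lhs => rw [hc l₁]
      rw [coeff_X_pow_mul', if_pos le_rfl, Nat.sub_self]
    rw [← h1]
    exact hl₁
  · have h2 : ∑ l, aeval g (p l) • u l = g ^ Nat.find hex • ∑ l, aeval g (c l) • u l := by
      rw [Finset.smul_sum]
      refine Finset.sum_congr rfl fun l _ => ?_
      conv_lhs => rw [hc l]
      rw [map_mul, map_pow, aeval_X, smul_smul]
    rw [h2] at hrel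
    exact (smul_eq_zero.1 hrel).resolve_left (pow_ne_zero _ hg)

/-- multiplication of one polynomial in the pencil by a power of `b` -/
theorem mul_aeval {a b G : L} (hG : G * b = a) (x : L) {c : C[X]} {n : ℕ} (hc : c.natDegree < n + 1) :
    b ^ (n + 1) * (aeval G c * x) = b ^ (n + 1) * (c.coeff 0 • x) +
      a * ∑ i ∈ Finset.range (n + 1), c.coeff (i + 1) • (a ^ i * (b ^ (n - i) * x)) := by
  rw [aeval_eq_sum_range' (lt_trans hc (Nat.lt_succ_self _)) G, Finset.sum_range_succ', add_mul,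
    mul_add, add_comm]
  congr 1
  · rw [pow_zero, smul_mul_assoc, one_mul]
  · rw [Finset.sum_mul, Finset.mul_sum, Finset.mul_sum]
    refine Finset.sum_congr rfl fun i hi => ?_
    rw [Finset.mem_range] at hi
    have e : n + 1 = (n - i) + (i + 1) := by omega
    rw [smul_mul_assoc, mul_smul_comm, mul_smul_comm, e, pow_add, ← hG]
    congr 1
    ring

/-- **The complement of `a R_m` is independent over the field of the pencil.** -/
theorem indep {R : ℕ → Submodule C L} (hmul : ∀ i j, ∀ x ∈ R i, ∀ y ∈ R j, x * y ∈ R (i + j))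
    {k : ℕ} {a b : L} (ha : a ∈ R k) (hb : b ∈ R k) (ha0 : a ≠ 0)
    {g : κ} (hg : algebraMap κ L g * b = a)
    (hκ : ∀ z : κ, ∃ p q : C[X], aeval g q ≠ 0 ∧ z * aeval g q = aeval g p)
    (hAB : ∀ m n : ℕ, ∀ ψ : L, a * ψ ∈ R (m + k) → b ^ n * ψ ∈ R (m + k * n) → ψ ∈ R m)
    {m : ℕ} {ι : Type*} [Fintype ι] {u : ι → L} (huR : ∀ l, u l ∈ R (m + k))
    (hu : ∀ c : ι → C, (∃ ψ ∈ R m, ∑ l, c l • u l = a * ψ) → c = 0) :
    LinearIndependent κ u := by
  classical
  rw [Fintype.linearIndependent_iff]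
  by_contra hne
  push Not at hne
  obtain ⟨z, hz, l₀, hl₀⟩ := hne
  have hg0 : g ≠ 0 := by
    intro h
    rw [h, map_zero, zero_mul] at hg
    exact ha0 hg.symm
  obtain ⟨c, ⟨l₁, hl₁⟩, hc⟩ := exists_relation hg0 hκ hz (fun h => hl₀ (congrFun h l₀))
  -- a common bound for the degrees
  set n := (Finset.univ.sup fun l => (c l).natDegree) with hn
  have hdeg : ∀ l, (c l).natDegree < n + 1 := fun l =>
    Nat.lt_succ_of_le (Finset.le_sup (f := fun l => (c l).natDegree) (Finset.mem_univ l))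
  set us : L := ∑ l, (c l).coeff 0 • u l with hus
  set W : L := ∑ l, ∑ i ∈ Finset.range (n + 1), (c l).coeff (i + 1) • (a ^ i * (b ^ (n - i) * u l))
    with hW
  have hrel : b ^ (n + 1) * us + a * W = 0 := by
    have h1 : b ^ (n + 1) * (∑ l, aeval g (c l) • u l) = b ^ (n + 1) * us + a * W := by
      rw [hus, hW, Finset.mul_sum, Finset.mul_sum, Finset.mul_sum, ← Finset.sum_add_distrib]
      refine Finset.sum_congr rfl fun l _ => ?_
      rw [Algebra.smul_def, ← aeval_algebraMap_apply]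
      exact mul_aeval hg (u l) (hdeg l)
    rw [← h1, hc, mul_zero]
  have husR : us ∈ R (m + k) := Submodule.sum_mem _ fun l _ => Submodule.smul_mem _ _ (huR l)
  have hWR : W ∈ R (m + k * (n + 1)) := by
    refine Submodule.sum_mem _ fun l _ => Submodule.sum_mem _ fun i hi => Submodule.smul_mem _ _ ?_
    have h1 := pow_mul_mem hmul ha hb (huR l) i (n - i)
    rw [Finset.mem_range] at hi
    have e : m + k + k * (i + (n - i)) = m + k * (n + 1) := by
      have : i + (n - i) = n := by omega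
      rw [this]; ring
    rwa [e] at h1
  have hψ : us / a ∈ R m := by
    apply hAB m (n + 1)
    · rw [mul_div_cancel₀ _ ha0]
      exact husR
    · have : b ^ (n + 1) * (us / a) = -W := by
        rw [eq_neg_iff_add_eq_zero]
        apply mul_left_cancel₀ ha0
        rw [mul_zero, mul_add, ← hrel]
        congr 1
        field_simp
      rw [this]
      exact Submodule.neg_mem _ hWR
  have h2 := hu (fun l => (c l).coeff 0) ⟨us / a, hψ, by rw [mul_div_cancel₀ _ ha0]⟩
  exact hl₁ (congrFun h2 l₁)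

/-- the rank over `κ` of a space of sections -/
noncomputable def rk (κ : Type*) {C L : Type*} [Field C] [Field κ] [Field L] [Algebra κ L]
    [Algebra C L] (R : Submodule C L) : ℕ :=
  Module.finrank κ (Submodule.span κ (R : Set L))

theorem finite_span (R : Submodule C L) [Module.Finite C R] :
    Module.Finite κ (Submodule.span κ (R : Set L)) := by
  obtain ⟨s, hs⟩ := (Module.Finite.iff_fg (N := R)).1 inferInstance
  have h1 : Submodule.span κ (R : Set L) = Submodule.span κ (s : Set L) := by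
    rw [← hs]
    exact Submodule.span_span_of_tower C κ (s : Set L)
  rw [h1]
  exact Module.Finite.span_of_finite κ s.finite_toSet

/-- linear algebra: a complement of `A` is independent over `κ` -/
theorem le_of_indep {V : Type*} [AddCommGroup V] [Module C V] [Module.Finite C V]
    (A : Submodule C V) (φ : V →ₗ[C] L) (S : Submodule κ L) [Module.Finite κ S]
    (hS : ∀ v, φ v ∈ S)
    (h : ∀ (n : ℕ) (u : Fin n → V), (∀ c : Fin n → C, ∑ l, c l • u l ∈ A → c = 0) →
      LinearIndependent κ (fun l => φ (u l))) :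
    Module.finrank C V ≤ Module.finrank κ S + Module.finrank C A := by
  obtain ⟨U, hU⟩ := Submodule.exists_isCompl A
  have h1 := Submodule.finrank_add_eq_of_isCompl hU
  have h3 : Module.finrank C U ≤ Module.finrank κ S := by
    have B := Module.finBasis C U
    have hli : LinearIndependent κ fun l => φ (B l : V) := by
      refine h _ (fun l => (B l : V)) ?_
      intro c hc
      have e : ((∑ l, c l • B l : U) : V) = ∑ l, c l • (B l : V) := by
        rw [Submodule.coe_sum]
        rfl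
      rw [← e] at hc
      have h0 : ((∑ l, c l • B l : U) : V) = 0 :=
        Submodule.disjoint_def.1 hU.disjoint _ hc (∑ l, c l • B l : U).2
      have h00 : (∑ l, c l • B l : U) = 0 := Subtype.ext h0
      funext l
      exact Fintype.linearIndependent_iff.1 B.linearIndependent c h00 l
    have hli2 : LinearIndependent κ fun l => (⟨φ (B l : V), hS _⟩ : S) :=
      LinearIndependent.of_comp (Submodule.subtype _) hli
    have h6 := hli2.fintype_card_le_finrank
    rw [Fintype.card_fin] at h6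
    exact h6
  omega

/-- **(M2)** `dim R_{m+k} ≤ N_{m+k} + dim R_m` -/
theorem le_add {R : ℕ → Submodule C L} [∀ m, Module.Finite C (R m)]
    (hmul : ∀ i j, ∀ x ∈ R i, ∀ y ∈ R j, x * y ∈ R (i + j))
    {k : ℕ} {a b : L} (ha : a ∈ R k) (hb : b ∈ R k) (ha0 : a ≠ 0)
    {g : κ} (hg : algebraMap κ L g * b = a)
    (hκ : ∀ z : κ, ∃ p q : C[X], aeval g q ≠ 0 ∧ z * aeval g q = aeval g p)
    (hAB : ∀ m n : ℕ, ∀ ψ : L, a * ψ ∈ R (m + k) → b ^ n * ψ ∈ R (m + k * n) → ψ ∈ R m) (m : ℕ) :
    Module.finrank C (R (m + k)) ≤ rk κ (R (m + k)) + Module.finrank C (R m) := by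
  have hfin := finite_span (κ := κ) (R (m + k))
  -- the image of `R m` in `R (m + k)`
  have h1 := le_of_indep (κ := κ) (((R m).map (mulL (F := C) a)).comap (R (m + k)).subtype)
    (R (m + k)).subtype (Submodule.span κ (R (m + k) : Set L))
    (fun v => Submodule.subset_span v.2) (by
      intro n u hu
      refine indep hmul ha hb ha0 hg hκ hAB (m := m) (fun l => (u l).2) ?_
      rintro c ⟨ψ, hψ, hc⟩
      apply hu c
      refine ⟨ψ, hψ, ?_⟩
      rw [map_sum]
      refine Eq.trans ?_ (hc.symm.trans ?_)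
      · rfl
      · rfl)
  refine h1.trans (Nat.add_le_add_left ?_ _)
  have h3 : Module.finrank C (((R m).map (mulL (F := C) a)).comap (R (m + k)).subtype) =
      Module.finrank C ((((R m).map (mulL (F := C) a)).comap (R (m + k)).subtype).map
        (R (m + k)).subtype) :=
    LinearEquiv.finrank_eq (Submodule.equivMapOfInjective _ (R (m + k)).subtype_injective _)
  rw [h3]
  refine (Submodule.finrank_mono (Submodule.map_comap_le _ _)).trans ?_
  rw [finrank_map_mulL ha0]

/-- superadditivity of the rank -/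
theorem superadd (hcl : ∀ z : L, IsAlgebraic κ z → z ∈ (algebraMap κ L).range)
    {R₁ R₂ R₃ : Submodule C L} [Module.Finite C R₁] [Module.Finite C R₂] [Module.Finite C R₃]
    (hR : ∀ x ∈ R₁, ∀ y ∈ R₂, x * y ∈ R₃) (hR₁ : 1 ≤ rk κ R₁) (hR₂ : 1 ≤ rk κ R₂) :
    rk κ R₁ + rk κ R₂ ≤ rk κ R₃ + 1 := by
  have h1 := finite_span (κ := κ) R₁
  have h2 := finite_span (κ := κ) R₂
  have h3 := finite_span (κ := κ) R₃
  have hne : ∀ R : Submodule C L, 1 ≤ rk κ R → Submodule.span κ (R : Set L) ≠ ⊥ := by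
    intro R hR h
    rw [rk, h, finrank_bot] at hR
    omega
  have h4 := finrank_mul_field hcl _ (Submodule.span κ (R₁ : Set L)) (Submodule.span κ (R₂ : Set L))
    rfl (hne _ hR₁) (hne _ hR₂) h1 h2
  have h5 : Submodule.span κ (R₁ : Set L) * Submodule.span κ (R₂ : Set L) ≤
      Submodule.span κ (R₃ : Set L) := by
    rw [Submodule.span_mul_span]
    refine Submodule.span_mono ?_
    rintro _ ⟨x, hx, y, hy, rfl⟩
    exact hR x hx y hy
  have h6 := Submodule.finrank_mono h5
  exact h4.trans (Nat.add_le_add_right h6 1)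

theorem rk_pos {R : Submodule C L} [Module.Finite C R] (h : 1 ≤ Module.finrank C R) :
    1 ≤ rk κ R := by
  have h1 := finite_span (κ := κ) R
  have h2 : R ≠ ⊥ := by
    rintro rfl
    rw [finrank_bot] at h
    omega
  obtain ⟨x, hx, hx0⟩ := (Submodule.ne_bot_iff _).1 h2
  have : 0 < Module.finrank κ (Submodule.span κ (R : Set L)) := by
    rw [Module.finrank_pos_iff_exists_ne_zero]
    exact ⟨⟨x, Submodule.subset_span hx⟩, fun h => hx0 (congrArg Subtype.val h)⟩
  exact this

/-- **(M3) Growth of the ranks.** -/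
theorem rank_growth (hcl : ∀ z : L, IsAlgebraic κ z → z ∈ (algebraMap κ L).range)
    {R : ℕ → Submodule C L} [∀ m, Module.Finite C (R m)]
    (hmul : ∀ i j, ∀ x ∈ R i, ∀ y ∈ R j, x * y ∈ R (i + j))
    {k : ℕ} (hk : 1 ≤ k) {a b : L} (ha : a ∈ R k) (hb : b ∈ R k) (ha0 : a ≠ 0)
    {g : κ} (hg : algebraMap κ L g * b = a)
    (hκ : ∀ z : κ, ∃ p q : C[X], aeval g q ≠ 0 ∧ z * aeval g q = aeval g p)
    (hAB : ∀ m n : ℕ, ∀ ψ : L, a * ψ ∈ R (m + k) → b ^ n * ψ ∈ R (m + k * n) → ψ ∈ R m)
    {δ : ℝ} (hδ : 0 < δ)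
    (hgr : ∀ η : ℝ, 0 < η → ∀ᶠ m : ℕ in atTop,
      (δ - η) * (m : ℝ) ^ 2 ≤ 2 * (Module.finrank C (R m) : ℝ))
    {η : ℝ} (hη : 0 < η) : ∀ᶠ m : ℕ in atTop, (k * δ - η) * (m : ℝ) ≤ (rk κ (R m) : ℝ) :=
  growth (N := fun m => rk κ (R m)) (r := fun m => Module.finrank C (R m)) hk hδ
    (le_add hmul ha hb ha0 hg hκ hAB) (fun _ h => rk_pos h)
    (fun i j hi hj => superadd hcl (hmul i j) hi hj) hgr hη

end Pool.Agent.TH13.N4
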