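import Pool.Agent.TH306.N4.Stmts
import Pool.Agent.TH880.N4.S0
import Pool.Agent.TH13.N4.Growth

/-! S3: growth of the rank of the sections over the field of the pencil. -/

set_option autoImplicit false

open MvPolynomial Module Filter Topology

namespace Pool.Agent.TH13.N4

open Pool.Agent.TH306.N4

theorem s3 : S3 := by
  intro a b P α β γ _ i j FF _ _ π hM hfd δ hδ hgr k g₁ g₂ hP η hη
  have h0 := Pool.Agent.TH880.N4.s0 a b P i j FF π hM
  set κ := IntermediateField.adjoin ℂ {g₁ / g₂} with hκdef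
  have hmem : ∀ m ψ, ψ ∈ SecM π m ↔ Sec π m ψ := fun m => (h0 m).1
  have hset : ∀ m, (SecM π m : Set FF) = {ψ : FF | Sec π m ψ} := fun m => Set.ext (hmem m)
  have hfin : ∀ m, Module.Finite ℂ (SecM π m) := hfd
  have hgen : g₁ / g₂ ∈ κ := IntermediateField.mem_adjoin_simple_self ℂ (g₁ / g₂)
  have hgr' : ∀ η : ℝ, 0 < η → ∀ᶠ m : ℕ in atTop,
      (δ - η) * (m : ℝ) ^ 2 ≤ 2 * (Module.finrank ℂ (SecM π m) : ℝ) := by
    intro η hη
    obtain ⟨m₀, hm₀⟩ := hgr η hη
    exact eventually_atTop.2 ⟨m₀, hm₀⟩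
  have key := rank_growth (κ := κ) (C := ℂ) (L := FF) (R := fun m => SecM π m) (a := g₁) (b := g₂)
    (g := ⟨g₁ / g₂, hgen⟩) (k := k) (δ := δ) (η := η)
    (fun z hz => ⟨⟨z, hP.closed z hz⟩, rfl⟩)
    (fun i j x hx y hy => by
      rw [hmem] at hx hy ⊢
      exact (h0 i).2.1 x hx j y hy)
    hP.hk ((hmem _ _).2 hP.sec₁) ((hmem _ _).2 hP.sec₂) hP.ne₁
    (div_mul_cancel₀ g₁ hP.ne₂)
    (by
      rintro ⟨z, hz⟩
      obtain ⟨r, s, hrs⟩ := (IntermediateField.mem_adjoin_simple_iff ℂ z).1 hz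
      have hcoe : ∀ p : Polynomial ℂ,
          ((Polynomial.aeval (⟨g₁ / g₂, hgen⟩ : κ) p : κ) : FF) = Polynomial.aeval (g₁ / g₂) p := by
        intro p
        exact (Polynomial.aeval_algebraMap_apply FF (⟨g₁ / g₂, hgen⟩ : κ) p).symm
      by_cases hs : Polynomial.aeval (g₁ / g₂) s = 0
      · refine ⟨0, 1, ?_, ?_⟩
        · rw [map_one]; exact one_ne_zero
        · apply Subtype.ext
          rw [hs, div_zero] at hrs
          rw [map_zero, map_one, mul_one]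
          exact hrs
      · refine ⟨r, s, ?_, ?_⟩
        · intro h
          apply hs
          rw [← hcoe, h]
          rfl
        · apply Subtype.ext
          show z * ((Polynomial.aeval (⟨g₁ / g₂, hgen⟩ : κ) s : κ) : FF) =
            ((Polynomial.aeval (⟨g₁ / g₂, hgen⟩ : κ) r : κ) : FF)
          rw [hcoe, hcoe, hrs, div_mul_cancel₀ _ hs])
    (by
      intro m n ψ h1 h2
      rw [hmem] at h1 h2 ⊢
      exact hP.sat m ψ h1 ⟨n, h2⟩)
    hδ hgr' hη
  obtain ⟨m₀, hm₀⟩ := eventually_atTop.1 key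
  refine ⟨m₀, fun m hm => ?_⟩
  have h1 := hm₀ m hm
  have h2 : N4.rk κ (SecM π m) = Pool.Agent.TH306.N4.rk π (g₁ / g₂) m := by
    unfold N4.rk Pool.Agent.TH306.N4.rk
    rw [hset]
  rw [← h2]
  exact h1

end Pool.Agent.TH13.N4
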