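import Pool.Agent.TH306.N4.StmtsV
import Pool.Agent.TH306.N4.Fin
import Pool.Agent.TH611.M5.Chart

/-! `L² ≥ 0` for nef `L = A - B`. -/

set_option autoImplicit false

open MvPolynomial Module Filter Topology

namespace Pool.Agent.TH13.N4

open Pool.Agent.TH306.N4 Pool.Agent.TH279.GR

/-- a nonzero section of `m A - p B` gives `L · (m A - p B) ≥ 0` -/
def SecNonneg : Prop :=
  ∀ (a b : ℕ) (P : Ideal (Co a b)) (α β γ : ℕ), Surf P α β γ → Nef P →
    ∀ (i : Fin (a + 1)) (j : Fin (b + 1)) (FF : Type) [Field FF] [Algebra ℂ FF]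
    (π : Co a b →ₐ[ℂ] FF), Mod P i j π → ∀ (m p : ℕ) (ψ : FF), Sec2 π m p ψ → ψ ≠ 0 →
      0 ≤ m * ((α : ℝ) - β) - p * ((β : ℝ) - γ)

/-- the numerical part: a rational slope with a section on the wrong side -/
theorem exists_slope {α β γ : ℕ} (h1 : β ≤ α) (h2 : α + γ < 2 * β) :
    ∃ p m : ℕ, p ≤ m ∧ 1 ≤ m ∧
      (0 : ℝ) < (α : ℝ) * m ^ 2 - 2 * β * m * p + γ * p ^ 2 ∧
      (m : ℝ) * ((α : ℝ) - β) - p * ((β : ℝ) - γ) < 0 := by
  have h1' : (β : ℝ) ≤ α := by exact_mod_cast h1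
  have h2' : (α : ℝ) + γ < 2 * β := by exact_mod_cast h2
  have hγ : (0 : ℝ) ≤ γ := Nat.cast_nonneg γ
  set u : ℝ := (α : ℝ) - β with hu
  set v : ℝ := (β : ℝ) - γ with hv
  have hu0 : 0 ≤ u := by linarith
  have hvu : u < v := by linarith
  have hv0 : 0 < v := by linarith
  have hβ0 : (0 : ℝ) < β := by linarith
  -- the value at `u / v`
  have hf : 0 < (α : ℝ) - 2 * β * (u / v) + γ * (u / v) ^ 2 := by
    have e : (α : ℝ) - 2 * β * (u / v) + γ * (u / v) ^ 2 =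
        (v - u) * (β * (v - u) + u * v) / v ^ 2 := by
      have hα : (α : ℝ) = β + u := by rw [hu]; ring
      have hγ' : (γ : ℝ) = β - v := by rw [hv]; ring
      rw [hα, hγ']
      field_simp
      ring
    rw [e]
    apply div_pos _ (by positivity)
    apply mul_pos (by linarith)
    have : 0 < (β : ℝ) * (v - u) := mul_pos hβ0 (by linarith)
    have h3 : 0 ≤ u * v := mul_nonneg hu0 hv0.le
    linarith
  set f0 : ℝ := (α : ℝ) - 2 * β * (u / v) + γ * (u / v) ^ 2 with hf0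
  have hlt : u / v < min 1 (u / v + f0 / (2 * β)) := by
    apply lt_min
    · rw [div_lt_one hv0]; exact hvu
    · have : 0 < f0 / (2 * β) := by positivity
      linarith
  obtain ⟨q, hq1, hq2⟩ := exists_rat_btwn hlt
  have hq3 : (q : ℝ) < 1 := lt_of_lt_of_le hq2 (min_le_left _ _)
  have hq4 : (q : ℝ) < u / v + f0 / (2 * β) := lt_of_lt_of_le hq2 (min_le_right _ _)
  have hq0 : (0 : ℝ) ≤ u / v := div_nonneg hu0 hv0.le
  have hqpos : (0 : ℝ) < q := lt_of_le_of_lt hq0 hq1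
  have hqpos' : 0 < q := by exact_mod_cast hqpos
  -- value at `q`
  have hfq : 0 < (α : ℝ) - 2 * β * q + γ * q ^ 2 := by
    have h3 : 2 * β * ((q : ℝ) - u / v) < f0 := by
      have : (q : ℝ) - u / v < f0 / (2 * β) := by linarith
      rw [lt_div_iff₀ (by positivity)] at this
      linarith
    have h4 : (γ : ℝ) * (u / v) ^ 2 ≤ γ * q ^ 2 := by
      apply mul_le_mul_of_nonneg_left _ hγ
      exact pow_le_pow_left₀ hq0 hq1.le 2
    rw [hf0] at h3
    nlinarith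
  refine ⟨q.num.toNat, q.den, ?_, q.den_pos, ?_, ?_⟩
  · have hnum : (q.num : ℝ) = q * q.den := by exact_mod_cast (Rat.mul_den_eq_num q).symm
    have hden : (0 : ℝ) < q.den := by exact_mod_cast q.den_pos
    have h3 : (q.num : ℝ) < q.den := by rw [hnum]; nlinarith
    have h4 : q.num < (q.den : ℤ) := by exact_mod_cast h3
    omega
  · have hnum : ((q.num.toNat : ℕ) : ℝ) = q * q.den := by
      have h5 : ((q.num.toNat : ℕ) : ℤ) = q.num := Int.toNat_of_nonneg (Rat.num_nonneg.2 hqpos'.le)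
      have h6 : (((q.num.toNat : ℕ) : ℤ) : ℝ) = (q.num : ℝ) := by rw [h5]
      rw [Int.cast_natCast] at h6
      rw [h6]
      exact_mod_cast (Rat.mul_den_eq_num q).symm
    have hden : (0 : ℝ) < q.den := by exact_mod_cast q.den_pos
    rw [hnum]
    have e : (α : ℝ) * (q.den : ℝ) ^ 2 - 2 * β * q.den * (q * q.den) + γ * (q * q.den) ^ 2 =
        ((α : ℝ) - 2 * β * q + γ * q ^ 2) * (q.den : ℝ) ^ 2 := by ring
    rw [e]
    positivity
  · have hnum : ((q.num.toNat : ℕ) : ℝ) = q * q.den := by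
      have h5 : ((q.num.toNat : ℕ) : ℤ) = q.num := Int.toNat_of_nonneg (Rat.num_nonneg.2 hqpos'.le)
      have h6 : (((q.num.toNat : ℕ) : ℤ) : ℝ) = (q.num : ℝ) := by rw [h5]
      rw [Int.cast_natCast] at h6
      rw [h6]
      exact_mod_cast (Rat.mul_den_eq_num q).symm
    have hden : (0 : ℝ) < q.den := by exact_mod_cast q.den_pos
    rw [hnum]
    have h7 : u < q * v := by rwa [div_lt_iff₀ hv0] at hq1
    have : (q.den : ℝ) * u - q * q.den * v = q.den * (u - q * v) := by ring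
    rw [this]
    exact mul_neg_of_pos_of_neg hden (by linarith)

/-- `1` is a section of `A` -/
theorem sec_one {a b : ℕ} {P : Ideal (Co a b)} {i : Fin (a + 1)} {j : Fin (b + 1)} {FF : Type}
    [Field FF] [Algebra ℂ FF] {π : Co a b →ₐ[ℂ] FF} (hM : Mod P i j π) : Sec2 π 1 0 (1 : FF) := by
  refine ⟨0, ?_⟩
  rintro _ ⟨F, hF, rfl⟩
  refine ⟨X (Sum.inl i) * F, ?_, ?_⟩
  · have h1 : (X (Sum.inl i) : Co a b) ∈ bh a b 1 0 := by
      exact (mem_weightedHomogeneousSubmodule _ _ _ _).2 (isWeightedHomogeneous_X ℂ (wt a b) _)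
    have h2 := ((mem_weightedHomogeneousSubmodule _ _ _ _).1 h1).mul
      ((mem_weightedHomogeneousSubmodule _ _ _ _).1 hF)
    have h3 : ((1, 0) : ℕ × ℕ) + (0, 0 + 0) = (0 + 1, 0) := rfl
    rw [h3] at h2
    exact (mem_weightedHomogeneousSubmodule _ _ _ _).2 h2
  · have h1 : π (X (Sum.inl i) - 1) = 0 := by
      rw [hM.ker]
      exact Ideal.mem_sup_right (Ideal.subset_span (by simp))
    rw [map_sub, map_one, sub_eq_zero] at h1
    show π (X (Sum.inl i) * F) = 1 * π F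
    rw [map_mul, h1]

/-- **SQ** -/
theorem sq (h0 : V0) (h7 : V7) (hs : SecNonneg) : SqNonneg := by
  intro a b P α β γ hX hN
  obtain ⟨i, j, hi, hj⟩ := exists_ij hX
  obtain ⟨FF, _, _, π, hM⟩ := Pool.Agent.TH611.M5.exists_Mod hX.prime hX.hom hi hj
  have h1 : β ≤ α := by
    have := hs a b P α β γ hX hN i j FF π hM 1 0 1 (sec_one hM) one_ne_zero
    have h2 : (β : ℝ) ≤ α := by push_cast at this; linarith
    exact_mod_cast h2
  by_contra hcon
  push Not at hcon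
  obtain ⟨p, m, hpm, hm, hpos, hneg⟩ := exists_slope h1 hcon
  obtain ⟨-, hgr⟩ := h7 a b P α β γ hX hN i j FF π hM
  set f0 : ℝ := (α : ℝ) * m ^ 2 - 2 * β * m * p + γ * p ^ 2 with hf0
  have hm0 : (0 : ℝ) < m := by exact_mod_cast hm
  obtain ⟨m₀, hm₀⟩ := hgr (f0 / (2 * m ^ 2)) (by positivity)
  set t := m₀ + 1 with ht
  have ht0 : (0 : ℝ) < (t : ℝ) := by exact_mod_cast Nat.succ_pos m₀
  have h2 := hm₀ (m * t) (by nlinarith) (p * t) (Nat.mul_le_mul_right t hpm)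
  have h3 : (0 : ℝ) < finrank ℂ (SecM2 π (m * t) (p * t)) := by
    push_cast at h2
    have e : (α : ℝ) * (m * t) ^ 2 - 2 * β * (m * t) * (p * t) + γ * (p * t) ^ 2 -
        f0 / (2 * m ^ 2) * (m * t) ^ 2 = f0 / 2 * (t : ℝ) ^ 2 := by
      have : f0 / (2 * m ^ 2) * (m * t) ^ 2 = f0 / 2 * (t : ℝ) ^ 2 := by
        field_simp
      rw [this, hf0]
      ring
    have h4 : 0 < f0 / 2 * (t : ℝ) ^ 2 := by positivity
    linarith
  have h4 : SecM2 π (m * t) (p * t) ≠ ⊥ := by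
    intro h
    rw [h, finrank_bot] at h3
    simp at h3
  obtain ⟨ψ, hψ, hψ0⟩ := (Submodule.ne_bot_iff _).1 h4
  have h5 := (h0 a b P i j FF π hM (m * t) (p * t)).1 ψ |>.1 hψ
  have h6 := hs a b P α β γ hX hN i j FF π hM (m * t) (p * t) ψ h5 hψ0
  push_cast at h6
  have h7 : (m : ℝ) * t * ((α : ℝ) - β) - p * t * ((β : ℝ) - γ) =
      t * (m * ((α : ℝ) - β) - p * ((β : ℝ) - γ)) := by ring
  rw [h7] at h6
  have := mul_neg_of_pos_of_neg ht0 hneg
  linarith

end Pool.Agent.TH13.N4
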